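import Pool.Agent.H631R3.Wk2

/-!
# Discrete spectrum of the de Rham Laplacians on the Hartogs triangle

For every degree the Laplacians `d d* + d* d` and `d_s d_s* + d_s* d_s` on square integrable forms
on the Hartogs triangle, where `d` and `d_s` are the weak and the strong maximal extensions of the
exterior derivative, have purely discrete spectrum.
-/

namespace Pool.Agent.Results.MP_3d295c_an.DiscreteSpectrum

open Pool.Agent.H631R3

theorem result : ∀ q : ℕ,
    HasDiscreteSpectrum (Laplacian (fun _ f g => WeakD f g) q) ∧
      HasDiscreteSpectrum (Laplacian (fun _ f g => StrongD f g) q) :=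
  fun q => ⟨discrete_weak q, discrete_strong q⟩

end Pool.Agent.Results.MP_3d295c_an.DiscreteSpectrum
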